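import Pool.Agent.K3h15.BF.Stm
import Pool.Agent.K3h15.DM.Roots
import Pool.Agent.K3h15.DM.Zeta

/-! # Discriminants of binary forms -/

set_option autoImplicit false

namespace Pool.Agent.K3h15.BF

open MvPolynomial
open Pool.Agent.H628R4.TP (weylS IsBFunction)
open Pool.Agent.K3h15.DM (Rx IsDisc aeval_eq)

/-- `D` is the discriminant of the binary forms `g_n X ^ n + g_(n-1) X ^ (n-1) Y + ⋯ + g_0 Y ^ n`: the
homogeneous polynomial of degree `2 n - 2` in the coefficients which for `g_n = 1`, at the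
coefficients of `∏ (X - x_i Y)`, has the value `∏_{i < j} (x_j - x_i) ^ 2`. -/
def IsDiscB (n : ℕ) (D : MvPolynomial (Fin (n + 1)) ℂ) : Prop :=
  D.IsHomogeneous (2 * n - 2) ∧ ∀ x : Fin n → ℂ,
    eval (fun j : Fin (n + 1) => (∏ i, (Polynomial.X - Polynomial.C (x i))).coeff j) D =
      ∏ i : Fin n, ∏ j ∈ Finset.Ioi i, (x j - x i) ^ 2

theorem disc_dh {n : ℕ} {D : MvPolynomial (Fin (n + 1)) ℂ} (hD : IsDiscB n D) :
    IsDisc n (dh n D) := by
  intro x
  rw [← hD.2 x]
  have h1 : ((aeval (fun j : Fin n => (∏ i, (Polynomial.X - Polynomial.C (x i))).coeff j) :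
      MvPolynomial (Fin n) ℂ →ₐ[ℂ] ℂ).comp (dh n)) =
      (aeval (fun j : Fin (n + 1) => (∏ i, (Polynomial.X - Polynomial.C (x i))).coeff j) :
        MvPolynomial (Fin (n + 1)) ℂ →ₐ[ℂ] ℂ) := by
    apply MvPolynomial.algHom_ext
    intro j
    rw [AlgHom.comp_apply, dh, aeval_X, aeval_X]
    split_ifs with h
    · rw [aeval_X]
    · rw [map_one]
      have hj : (j : ℕ) = n := by
        have := j.2
        omega
      have hm : (∏ i, (Polynomial.X - Polynomial.C (x i))).Monic :=
        Polynomial.monic_prod_of_monic _ _ fun _ _ => Polynomial.monic_X_sub_C _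
      have hd : (∏ i, (Polynomial.X - Polynomial.C (x i))).natDegree = n := by
        rw [Polynomial.natDegree_prod_of_monic _ _ fun _ _ => Polynomial.monic_X_sub_C _]
        simp only [Polynomial.natDegree_X_sub_C, Finset.sum_const, Finset.card_univ,
          Fintype.card_fin, smul_eq_mul, mul_one]
      rw [Polynomial.Monic, Polynomial.leadingCoeff, hd] at hm
      rw [hj, hm]
  have h2 := congrArg (fun t => t D) h1
  simp only [AlgHom.comp_apply] at h2
  have h3 : ∀ (m : ℕ) (y : Fin m → ℂ) (p : MvPolynomial (Fin m) ℂ),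
      (aeval y : MvPolynomial (Fin m) ℂ →ₐ[ℂ] ℂ) p = eval y p := fun m y p =>
    congrArg (fun t : MvPolynomial (Fin m) ℂ →+* ℂ => t p) (MvPolynomial.coe_aeval_eq_eval y)
  rw [h3, h3] at h2
  exact h2

end Pool.Agent.K3h15.BF
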