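import Pool.Agent.H628R4.TP.Defs

/-! # Homogeneous polynomials and their restrictions to a chart: statement of the step -/

set_option autoImplicit false

namespace Pool.Agent.K3h15.BF

open MvPolynomial
open Pool.Agent.H628R4.TP (weylS IsBFunction)

/-- the restriction to the hyperplane where the last variable is one -/
noncomputable def dh (n : ℕ) : MvPolynomial (Fin (n + 1)) ℂ →ₐ[ℂ] MvPolynomial (Fin n) ℂ :=
  aeval fun j : Fin (n + 1) => if h : (j : ℕ) < n then X ⟨j, h⟩ else 1

/-- brick DEHOM: a functional equation of a homogeneous polynomial gives a functional equation of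
the dehomogenized polynomial, with the same `c` -/
def StmDehom : Prop := ∀ (n d : ℕ) (f : MvPolynomial (Fin (n + 1)) ℂ), f.IsHomogeneous d →
  ∀ c : Polynomial ℂ, IsBFunction f c → IsBFunction (dh n f) c

end Pool.Agent.K3h15.BF
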